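import Pool.Agent.H36.OPack

open Pool.Agent.H38.NP Pool.Agent.H36.OPack

theorem Pool.Agent.Results.MP_563097_lc.Hard.result :
    CoNPHardOn (fun p : ℕ × List (ℕ × ℕ) => (graphOf p.1 p.2).IsBipartite)
      fun p => OneSize (graphOf p.1 p.2) :=
  hard.coNPHardOn
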